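import Pool.Agent.P.MP_a05398_ag.St.Retr

set_option autoImplicit false

namespace Pool.Agent.Results.MP_a05398_ag.Structure

open Pool.Agent.P.MP_a05398_ag

/-- Every smooth Fano polytope is a free sum of hexagons, of twisted hexagonal bipyramids and of a
smooth Fano polytope of dimension `e` with at most `5e/2` vertices. -/
theorem result :
    ∀ (d : ℕ) (V : Finset (Fin d → ℤ)),
      0 < d →
      (0 : Fin d → ℝ) ∈ interior (convexHull ℝ
        ((fun (v : Fin d → ℤ) (i : Fin d) => (v i : ℝ)) '' (V : Set (Fin d → ℤ)))) →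
      (∀ v ∈ V, (fun i : Fin d => (v i : ℝ)) ∉ convexHull ℝ
        ((fun (w : Fin d → ℤ) (i : Fin d) => (w i : ℝ)) ''
          ((V.erase v : Finset (Fin d → ℤ)) : Set (Fin d → ℤ)))) →
      (∀ u : Fin d → ℝ, (∀ v ∈ V, ∑ i, u i * (v i : ℝ) ≤ 1) →
        ∃ b : Module.Basis (Fin d) ℤ (Fin d → ℤ),
          ∀ v ∈ V, ∑ i, u i * (v i : ℝ) = 1 → v ∈ Set.range b) →
      ∃ (a b e : ℕ) (g : (Fin d → ℤ) ≃+ (Fin a → ℤ × ℤ) × (Fin b → ℤ × ℤ × ℤ) × (Fin e → ℤ))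
        (W : Finset (Fin e → ℤ)),
        d = 2 * a + 3 * b + e ∧ 2 * W.card ≤ 5 * e ∧
        (∀ v : Fin d → ℤ, v ∈ V ↔
          (∃ j : Fin a,
            ∃ h ∈ ({(1, 0), (0, 1), (-1, 0), (0, -1), (1, 1), (-1, -1)} : Finset (ℤ × ℤ)),
              g v = (Pi.single j h, 0, 0)) ∨
          (∃ j : Fin b,
            ∃ y ∈ ({(1, 0, 0), (0, 1, 0), (-1, 0, 0), (0, -1, 0), (1, 1, 0), (-1, -1, 0),
              (0, 0, 1), (1, 0, -1)} : Finset (ℤ × ℤ × ℤ)),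
              g v = (0, Pi.single j y, 0)) ∨
          ∃ w ∈ W, g v = (0, 0, w)) ∧
        (0 < e →
          (0 : Fin e → ℝ) ∈ interior (convexHull ℝ
            ((fun (v : Fin e → ℤ) (i : Fin e) => (v i : ℝ)) '' (W : Set (Fin e → ℤ)))) ∧
          (∀ v ∈ W, (fun i : Fin e => (v i : ℝ)) ∉ convexHull ℝ
            ((fun (w : Fin e → ℤ) (i : Fin e) => (w i : ℝ)) ''
              ((W.erase v : Finset (Fin e → ℤ)) : Set (Fin e → ℤ)))) ∧
          ∀ u : Fin e → ℝ, (∀ v ∈ W, ∑ i, u i * (v i : ℝ) ≤ 1) →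
            ∃ b : Module.Basis (Fin e) ℤ (Fin e → ℤ),
              ∀ v ∈ W, ∑ i, u i * (v i : ℝ) = 1 → v ∈ Set.range b) := by
  intro d V hd h1 h2 h3
  obtain ⟨a, b, e, g, W, c1, c2, c3⟩ := structure_thm (fano_of V hd h1 h2 h3)
  refine ⟨a, b, e, g, W, c1, c2, c3, fun he => retr_fano
    (ι := g.symm.toAddMonoidHom.comp ((AddMonoidHom.inr _ _).comp (AddMonoidHom.inr _ _)))
    (π := (AddMonoidHom.snd _ _).comp ((AddMonoidHom.snd _ _).comp g.toAddMonoidHom))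
    (fun x => by simp) he (fun w hw => (c3 _).2 (Or.inr (Or.inr ⟨w, hw, by simp⟩)))
    (fun v hv => ?_) h1 h2 h3⟩
  rcases (c3 v).1 hv with ⟨_, _, -, h⟩ | ⟨_, _, -, h⟩ | ⟨w, hw, h⟩
  · exact Or.inl (congrArg (fun z => z.2.2) h)
  · exact Or.inl (congrArg (fun z => z.2.2) h)
  · exact Or.inr (show (g v).2.2 ∈ W by rwa [h])

end Pool.Agent.Results.MP_a05398_ag.Structure
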